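import Mathlib

set_option autoImplicit false

/-!
Edges of graphs with small independence number; random labels of the edges.
-/

namespace Pool.Agent.J4H88.UG

open Finset
open scoped Classical

/-- the ordered pairs -/
theorem ordered {m : ℕ} (B : SimpleGraph (Fin m)) :
    (∑ v, (univ.filter fun u => B.Adj v u).card) =
      2 * (univ.filter fun p : Fin m × Fin m => p.1 < p.2 ∧ B.Adj p.1 p.2).card := by
  have h1 : (∑ v, (univ.filter fun u => B.Adj v u).card) =
      (univ.filter fun p : Fin m × Fin m => B.Adj p.1 p.2).card := by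
    rw [card_filter, Fintype.sum_prod_type]
    refine sum_congr rfl fun v _ => ?_
    rw [card_filter]
  have h3 : (univ.filter fun p : Fin m × Fin m => p.2 < p.1 ∧ B.Adj p.1 p.2).card =
      (univ.filter fun p : Fin m × Fin m => p.1 < p.2 ∧ B.Adj p.1 p.2).card := by
    refine card_bij (fun p _ => p.swap) ?_ ?_ ?_
    · intro p hp
      rw [mem_filter] at hp ⊢
      exact ⟨mem_univ _, hp.2.1, hp.2.2.symm⟩
    · intro p _ p' _ h
      exact Prod.swap_injective h
    · intro p hp
      rw [mem_filter] at hp
      exact ⟨p.swap, mem_filter.2 ⟨mem_univ _, hp.2.1, hp.2.2.symm⟩, Prod.swap_swap p⟩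
  have h4 : (univ.filter fun p : Fin m × Fin m => B.Adj p.1 p.2) =
      (univ.filter fun p : Fin m × Fin m => p.1 < p.2 ∧ B.Adj p.1 p.2) ∪
      (univ.filter fun p : Fin m × Fin m => p.2 < p.1 ∧ B.Adj p.1 p.2) := by
    ext p
    simp only [mem_filter, mem_univ, true_and, mem_union]
    constructor
    · intro h
      rcases lt_or_gt_of_ne h.ne with h' | h'
      · exact Or.inl ⟨h', h⟩
      · exact Or.inr ⟨h', h⟩
    · rintro (h | h) <;> exact h.2
  rw [h1, h4, card_union_of_disjoint, h3, two_mul]
  rw [disjoint_left]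
  intro p hp hp'
  rw [mem_filter] at hp hp'
  exact absurd (hp.2.1.trans hp'.2.1) (lt_irrefl _)

/-- small independence number implies many edges -/
theorem many_edges {m : ℕ} (B : SimpleGraph (Fin m)) (D : ℕ)
    (hind : ∀ I : Finset (Fin m), (∀ u ∈ I, ∀ v ∈ I, ¬ B.Adj u v) → 2 * (D + 1) * I.card < m) :
    (D + 1) * m ≤
      4 * (univ.filter fun p : Fin m × Fin m => p.1 < p.2 ∧ B.Adj p.1 p.2).card := by
  set V : Finset (Fin m) := univ.filter fun v => (univ.filter fun u => B.Adj v u).card ≤ D with hV
  -- a largest independent subset of `V`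
  let F : Finset (Finset (Fin m)) :=
    V.powerset.filter fun I => ∀ u ∈ I, ∀ v ∈ I, ¬ B.Adj u v
  have hF : F.Nonempty := ⟨∅, mem_filter.2 ⟨mem_powerset.2 (empty_subset _), by simp⟩⟩
  obtain ⟨I, hI, hmax⟩ := exists_max_image F card hF
  rw [mem_filter, mem_powerset] at hI
  have hcov : V ⊆ I.biUnion fun u => insert u (univ.filter fun w => B.Adj u w) := by
    intro v hv
    by_contra hn
    rw [mem_biUnion] at hn
    push Not at hn
    have hvI : v ∉ I := fun h => hn v h (mem_insert_self _ _)
    have hna : ∀ u ∈ I, ¬ B.Adj u v := fun u hu h =>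
      hn u hu (mem_insert_of_mem (mem_filter.2 ⟨mem_univ _, h⟩))
    have hin : insert v I ∈ F := by
      refine mem_filter.2 ⟨mem_powerset.2 (insert_subset hv hI.1), ?_⟩
      intro a ha b hb
      rw [mem_insert] at ha hb
      rcases ha with rfl | ha <;> rcases hb with rfl | hb
      · exact B.irrefl
      · exact fun h => hna b hb h.symm
      · exact hna a ha
      · exact hI.2 a ha b hb
    have := hmax _ hin
    rw [card_insert_of_notMem hvI] at this
    omega
  have hVc : V.card ≤ (D + 1) * I.card := by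
    refine (card_le_card hcov).trans (card_biUnion_le.trans ?_)
    rw [mul_comm, ← smul_eq_mul, ← sum_const]
    refine sum_le_sum fun u hu => ?_
    refine (card_insert_le _ _).trans ?_
    have := (mem_filter.1 (hI.1 hu)).2
    omega
  have hi := hind I hI.2
  have hsplit : V.card + Vᶜ.card = m := by
    rw [card_add_card_compl, Fintype.card_fin]
  have hHi : (D + 1) * Vᶜ.card ≤ ∑ v, (univ.filter fun u => B.Adj v u).card := by
    rw [mul_comm, ← smul_eq_mul, ← sum_const]
    refine (sum_le_sum fun v hv => ?_).trans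
      (sum_le_sum_of_subset_of_nonneg (subset_univ Vᶜ) fun _ _ _ => Nat.zero_le _)
    rw [mem_compl, hV, mem_filter] at hv
    push Not at hv
    exact hv (mem_univ _)
  rw [ordered] at hHi
  have h2 : 2 * V.card < m := by
    calc 2 * V.card ≤ 2 * ((D + 1) * I.card) := by omega
      _ = 2 * (D + 1) * I.card := by ring
      _ < m := hi
  have h3 : m ≤ 2 * Vᶜ.card := by omega
  calc (D + 1) * m ≤ (D + 1) * (2 * Vᶜ.card) := Nat.mul_le_mul_left _ h3
    _ = 2 * ((D + 1) * Vᶜ.card) := by ring
    _ ≤ _ := by omega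

/-- exponential moment of the number of satisfied conditions -/
theorem moment {E Z : Type} [Fintype E] [Fintype Z] (c : E → Z) :
    ∑ w : E → Z, (Fintype.card Z : ℝ) ^ (univ.filter fun e => w e = c e).card ≤
      (2 * (Fintype.card Z : ℝ)) ^ Fintype.card E := by
  have h1 : ∀ w : E → Z, (Fintype.card Z : ℝ) ^ (univ.filter fun e => w e = c e).card =
      ∏ e, if w e = c e then (Fintype.card Z : ℝ) else 1 := by
    intro w
    rw [prod_ite, prod_const_one, mul_one, prod_const]
  rw [sum_congr rfl fun w _ => h1 w]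
  have h2 := prod_univ_sum (fun _ : E => (univ : Finset Z))
    (fun e z => if z = c e then (Fintype.card Z : ℝ) else 1)
  rw [Fintype.piFinset_univ] at h2
  rw [← h2]
  refine (prod_le_prod (fun _ _ => sum_nonneg fun _ _ => by split_ifs <;> positivity)
    fun e _ => (?_ : _ ≤ 2 * (Fintype.card Z : ℝ))).trans ?_
  · rw [sum_ite, sum_const, sum_const, filter_eq' univ (c e), if_pos (mem_univ _), card_singleton,
      one_smul, nsmul_eq_mul, mul_one, two_mul]
    have : ((univ.filter fun z => ¬ z = c e).card : ℝ) ≤ Fintype.card Z := by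
      exact_mod_cast card_le_univ _
    linarith
  · rw [prod_const, card_univ]

/-- the union bound -/
theorem union_bound {E Z A : Type} [Fintype E] [Fintype Z] [Fintype A] (c : A → E → Z) (δ : ℝ)
    (hq : 1 ≤ Fintype.card Z)
    (h : (Fintype.card A : ℝ) * 2 ^ Fintype.card E <
      (Fintype.card Z : ℝ) ^ (δ * Fintype.card E)) :
    ∃ w : E → Z, ∀ a, ((univ.filter fun e => w e = c a e).card : ℝ) ≤ δ * Fintype.card E := by
  by_contra hcon
  push Not at hcon
  set q : ℝ := (Fintype.card Z : ℝ) with hqd
  have hq1 : 1 ≤ q := by rw [hqd]; exact_mod_cast hq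
  have hq0 : 0 < q := by linarith
  have h1 : ∀ w : E → Z, q ^ (δ * Fintype.card E) ≤
      ∑ a, q ^ (univ.filter fun e => w e = c a e).card := by
    intro w
    obtain ⟨a, ha⟩ := hcon w
    refine le_trans ?_ (single_le_sum (f := fun a => q ^ (univ.filter fun e => w e = c a e).card)
      (fun _ _ => by positivity) (mem_univ a))
    rw [← Real.rpow_natCast]
    exact Real.rpow_le_rpow_of_exponent_le hq1 ha.le
  have h2 : (∑ _w : E → Z, q ^ (δ * Fintype.card E)) ≤
      ∑ w : E → Z, ∑ a, q ^ (univ.filter fun e => w e = c a e).card :=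
    sum_le_sum fun w _ => h1 w
  rw [sum_comm, sum_const, card_univ, Fintype.card_fun, nsmul_eq_mul] at h2
  have h3 : (∑ a, ∑ w : E → Z, q ^ (univ.filter fun e => w e = c a e).card) ≤
      Fintype.card A * (2 * q) ^ Fintype.card E := by
    refine (sum_le_sum fun a _ => moment (c a)).trans ?_
    rw [sum_const, card_univ, nsmul_eq_mul]
  have h4 := h2.trans h3
  push_cast at h4
  rw [← hqd, mul_pow] at h4
  have h5 : q ^ Fintype.card E * q ^ (δ * Fintype.card E) ≤
      q ^ Fintype.card E * (Fintype.card A * 2 ^ Fintype.card E) := by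
    calc _ ≤ _ := h4
      _ = _ := by ring
  have h6 := le_of_mul_le_mul_left h5 (by positivity)
  linarith

end Pool.Agent.J4H88.UG
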