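import Pool.Agent.J4H64.UG.Stm
import Pool.Agent.J4H88.UG.Count

set_option autoImplicit false

/-!
BASE: graphs of bounded degree and large girth with equations of small value.
-/

namespace Pool.Agent.J4H88.UG

open Finset DomAC0 Pool.Agent.J4H64.VC Pool.Agent.J4H64.UG
open scoped Classical

theorem t_BASE : S_BASE := by
  intro δ hδ
  obtain ⟨r, hr⟩ := exists_nat_ge ((4 : ℝ) ^ (1 / δ))
  obtain ⟨D, hD⟩ := exists_nat_gt (16 / δ)
  obtain ⟨L, hL⟩ := Pool.Agent.J4H64.VC.Base.exists_base (2 * (D + 1)) (by omega)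
  refine ⟨r, L, fun g => ?_⟩
  obtain ⟨m, B, hdeg, hgirth, hind⟩ := hL g
  have hm : 0 < m := by
    have := hind ∅ (by simp)
    simpa using this
  have hE := many_edges B D hind
  have hEd : (univ.filter fun p : Fin m × Fin m => p.1 < p.2 ∧ B.Adj p.1 p.2).card =
      Fintype.card (Ed B) := (Fintype.card_subtype _).symm
  rw [hEd] at hE
  have hER : ((D : ℝ) + 1) * m ≤ 4 * Fintype.card (Ed B) := by exact_mod_cast hE
  have hmR : (0 : ℝ) < m := by exact_mod_cast hm
  have h16 : 16 < δ * D := by
    rw [div_lt_iff₀ hδ] at hD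
    linarith
  have hEm : 4 * (m : ℝ) < δ * Fintype.card (Ed B) := by
    have h1 : δ * (((D : ℝ) + 1) * m) ≤ δ * (4 * Fintype.card (Ed B)) :=
      mul_le_mul_of_nonneg_left hER hδ.le
    have h2 : 16 * (m : ℝ) < δ * (((D : ℝ) + 1) * m) := by
      have : δ * (((D : ℝ) + 1) * m) = (δ * D) * m + δ * m := by ring
      rw [this]
      have h3 := mul_lt_mul_of_pos_right h16 hmR
      have h4 : 0 < δ * m := by positivity
      linarith
    linarith
  have hE0 : 0 < Fintype.card (Ed B) := by
    by_contra h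
    have : Fintype.card (Ed B) = 0 := by omega
    rw [this] at hEm
    simp only [Nat.cast_zero, mul_zero] at hEm
    linarith
  have hcardZ : Fintype.card (ZMod (r + 2)) = r + 2 := ZMod.card (r + 2)
  set q : ℝ := ((r + 2 : ℕ) : ℝ) with hq
  have hq2 : (4 : ℝ) ^ (1 / δ) ≤ q := by rw [hq]; push_cast; linarith
  have hq1 : (1 : ℝ) < q := by rw [hq]; push_cast; have : (0 : ℝ) ≤ r := by positivity
                               linarith
  have hq0 : (0 : ℝ) < q := by linarith
  have h4 : (4 : ℝ) ≤ q ^ δ := by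
    have h1 : ((4 : ℝ) ^ (1 / δ)) ^ δ = 4 := by
      rw [← Real.rpow_mul (by norm_num), one_div_mul_cancel hδ.ne', Real.rpow_one]
    rw [← h1]
    exact Real.rpow_le_rpow (by positivity) hq2 hδ.le
  have h2 : (2 : ℝ) ≤ q ^ (δ / 2) := by
    have h1 : (q ^ (δ / 2)) ^ 2 = q ^ δ := by
      rw [← Real.rpow_natCast, ← Real.rpow_mul hq0.le]
      congr 1
      push_cast
      ring
    have h0 : 0 ≤ q ^ (δ / 2) := by positivity
    nlinarith
  obtain ⟨w, hw⟩ := union_bound (E := Ed B) (Z := ZMod (r + 2))
    (A := (Fin m → ZMod (r + 2)) × (Fin m → ZMod (r + 2)))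
    (fun a e => a.2 (tg B e) - a.1 (sr B e)) δ (by rw [hcardZ]; omega) (by
      rw [Fintype.card_prod, Fintype.card_fun, Fintype.card_fin, hcardZ]
      push_cast
      have hq' : (r : ℝ) + 2 = q := by rw [hq]; push_cast; ring
      rw [hq']
      have e1 : (2 : ℝ) ^ Fintype.card (Ed B) ≤ q ^ (δ / 2 * Fintype.card (Ed B)) := by
        rw [Real.rpow_mul hq0.le, Real.rpow_natCast]
        exact pow_le_pow_left₀ (by norm_num) h2 _
      have e2 : q ^ m * q ^ m < q ^ (δ / 2 * Fintype.card (Ed B)) := by
        rw [← pow_add, ← Real.rpow_natCast]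
        refine Real.rpow_lt_rpow_of_exponent_lt hq1 ?_
        push_cast
        linarith
      calc q ^ m * q ^ m * 2 ^ Fintype.card (Ed B)
          < q ^ (δ / 2 * Fintype.card (Ed B)) * q ^ (δ / 2 * Fintype.card (Ed B)) := by
            refine mul_lt_mul e2 e1 (by positivity) (by positivity)
        _ = q ^ (δ * Fintype.card (Ed B)) := by
            rw [← Real.rpow_add hq0]
            congr 1
            ring)
  refine ⟨m, B, w, hE0, tree_of_girth hgirth, fun v => ?_, fun x y => ?_⟩
  · convert deg_ed hdeg v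
  · have := hw (x, y)
    have he : (univ.filter fun e : Ed B => x (sr B e) + w e = y (tg B e)) =
        univ.filter fun e : Ed B => w e = y (tg B e) - x (sr B e) := by
      ext e
      simp only [mem_filter, mem_univ, true_and]
      constructor
      · intro h; rw [← h]; ring
      · intro h; rw [h]; ring
    rw [he]
    convert this

end Pool.Agent.J4H88.UG
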